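import Pool.Agent.H.MP_dc9a2a_an.A

set_option autoImplicit false

namespace Pool.Agent.H.MP_dc9a2a_an
open scoped BoundedContinuousFunction
open Set Equiv

variable {G : Type} [NormedAddCommGroup G] [NormedSpace ℝ G]

def Gur (G : Type) [NormedAddCommGroup G] [NormedSpace ℝ G] : Prop :=
  ∀ (F : Type) [NormedAddCommGroup F] [NormedSpace ℝ F] [FiniteDimensional ℝ F]
    (E : Submodule ℝ F) (T : E →ₗᵢ[ℝ] G) (ε : ℝ), 0 < ε →
    ∃ S : F →ₗ[ℝ] G, (∀ x : E, S (x : F) = T x) ∧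
      ∀ x : F, (1 - ε) * ‖x‖ ≤ ‖S x‖ ∧ ‖S x‖ ≤ (1 + ε) * ‖x‖

theorem HB {X : Type} [AddCommGroup X] [Module ℝ X] (T : X →ₗ[ℝ] G) (φ : X →ₗ[ℝ] ℝ) {c : ℝ}
    (c0 : 0 ≤ c) (h : ∀ x, |φ x| ≤ c * ‖T x‖) :
    ∃ ψ : G →L[ℝ] ℝ, ‖ψ‖ ≤ c ∧ ∀ x, ψ (T x) = φ x := by
  have hk : LinearMap.ker T ≤ LinearMap.ker φ := fun x hx => by
    have := h x
    rw [LinearMap.mem_ker.1 hx, norm_zero, mul_zero] at this
    exact abs_nonpos_iff.1 this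
  obtain ⟨f, hf⟩ : ∃ f : LinearMap.range T →ₗ[ℝ] ℝ, ∀ x, f ⟨T x, x, rfl⟩ = φ x :=
    ⟨(LinearMap.ker T).liftQ φ hk ∘ₗ T.quotKerEquivRange.symm.toLinearMap, fun x => by
      simp [LinearMap.quotKerEquivRange_symm_apply_image]⟩
  have b : ∀ y, ‖f y‖ ≤ c * ‖y‖ := by
    rintro ⟨_, x, rfl⟩
    rw [hf]
    exact h x
  obtain ⟨ψ, h1, h2⟩ := exists_extension_norm_eq _ (f.mkContinuous c b)
  exact ⟨ψ, h2.trans_le (f.mkContinuous_norm_le c0 b), fun x => (h1 ⟨T x, x, rfl⟩).trans (hf x)⟩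

theorem ab {X : Type} [NormedAddCommGroup X] [NormedSpace ℝ X] {ψ : X →L[ℝ] ℝ} {c : ℝ}
    (h : ‖ψ‖ ≤ c) (x : X) : |ψ x| ≤ c * ‖x‖ := ψ.le_of_opNorm_le h x

def AI {X : Type} [NormedAddCommGroup X] [NormedSpace ℝ X] (j : X →ₗ[ℝ] G) (ε : ℝ) : Prop :=
  ∀ x, (1 - ε) * ‖x‖ ≤ ‖j x‖ ∧ ‖j x‖ ≤ (1 + ε) * ‖x‖

theorem gext0 (hG : Gur G) {F X W : Type} [NormedAddCommGroup F] [NormedSpace ℝ F]
    [NormedAddCommGroup X] [NormedSpace ℝ X] [NormedAddCommGroup W] [NormedSpace ℝ W]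
    [FiniteDimensional ℝ W] (u : F →ₗᵢ[ℝ] G) (k : F →ₗ[ℝ] X) {η : ℝ} (h0 : 0 < η) (h1 : η ≤ 1)
    (a : F →ₗᵢ[ℝ] W) (b : X →ₗ[ℝ] W) (n2 : ∀ x, ‖b x‖ = ‖x‖)
    (n3 : ∀ y, ‖b (k y) - a y‖ ≤ η * ‖y‖) :
    ∃ j : X →ₗ[ℝ] G, AI j η ∧ ∀ y, ‖j (k y) - u y‖ ≤ 2 * η * ‖y‖ := by
  obtain ⟨S, s1, s2⟩ := hG W (LinearMap.range a.toLinearMap)
    (u.comp a.equivRange.symm.toLinearIsometry) η h0
  refine ⟨S ∘ₗ b, fun x => ?_, fun y => ?_⟩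
  · rw [← n2 x]
    exact s2 _
  · have e : S (a y) = u y := by simpa using s1 (a.equivRange y)
    rw [← e]
    refine (le_of_eq_of_le (congrArg _ (map_sub S _ _).symm) (s2 _).2).trans ?_
    have : 0 ≤ η * ‖y‖ := by positivity
    refine (mul_le_mul_of_nonneg_left (n3 y) (by positivity)).trans ?_
    nlinarith

theorem gext1 (hG : Gur G) {F X W : Type} [NormedAddCommGroup F] [NormedSpace ℝ F]
    [FiniteDimensional ℝ F] [NormedAddCommGroup X] [NormedSpace ℝ X] [FiniteDimensional ℝ X]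
    [NormedAddCommGroup W] [NormedSpace ℝ W] (u : F →ₗᵢ[ℝ] G) (k : F →ₗ[ℝ] X) {η : ℝ} (h0 : 0 < η)
    (h1 : η ≤ 1) (L : F × X →ₗ[ℝ] W) (n1 : ∀ y, ‖L (y, 0)‖ = ‖y‖) (n2 : ∀ x, ‖L (0, x)‖ = ‖x‖)
    (n3 : ∀ y, ‖L (0, k y) - L (y, 0)‖ ≤ η * ‖y‖) :
    ∃ j : X →ₗ[ℝ] G, AI j η ∧ ∀ y, ‖j (k y) - u y‖ ≤ 2 * η * ‖y‖ :=
  gext0 hG u k h0 h1 (W := LinearMap.range L) ⟨L.rangeRestrict ∘ₗ LinearMap.inl ℝ F X, n1⟩
    (L.rangeRestrict ∘ₗ LinearMap.inr ℝ F X) n2 n3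

theorem gext (hG : Gur G) {F X : Type} [NormedAddCommGroup F] [NormedSpace ℝ F]
    [FiniteDimensional ℝ F] [NormedAddCommGroup X] [NormedSpace ℝ X] [FiniteDimensional ℝ X]
    (u : F →ₗᵢ[ℝ] G) (k : F →ₗ[ℝ] X) {η : ℝ} (h0 : 0 < η) (h1 : η ≤ 1)
    (hk : ∀ y, (1 - η) * ‖y‖ ≤ ‖k y‖ ∧ ‖k y‖ ≤ ‖y‖) :
    ∃ j : X →ₗ[ℝ] G, AI j η ∧ ∀ y, ‖j (k y) - u y‖ ≤ 2 * η * ‖y‖ := by
  let K := {q : (F →L[ℝ] ℝ) × (X →L[ℝ] ℝ) //
    ‖q.1‖ ≤ 1 ∧ ‖q.2‖ ≤ 1 ∧ ∀ y, |q.2 (k y) - q.1 y| ≤ η * ‖y‖}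
  obtain ⟨L, hL⟩ : ∃ L : F × X →ₗ[ℝ] K →ᵇ ℝ, ∀ v q, L v q = q.1.1 v.1 + q.1.2 v.2 :=
    ⟨⟨⟨fun v => .ofNormedAddCommGroup (fun q => q.1.1 v.1 + q.1.2 v.2) (by fun_prop)
      (1 * ‖v.1‖ + 1 * ‖v.2‖) fun q => (abs_add_le _ _).trans
        (add_le_add (ab q.2.1 _) (ab q.2.2.1 _)), fun v w => by ext q; simp; ring⟩,
      fun c v => by ext q; simp; ring⟩, fun _ _ => rfl⟩
  have n1 : ∀ y, ‖L (y, 0)‖ = ‖y‖ := fun y => by
    refine le_antisymm ((BoundedContinuousFunction.norm_le (norm_nonneg _)).2 fun q => by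
      simpa [hL] using ab q.2.1 y) ?_
    obtain ⟨ψ, a1, a2⟩ := exists_dual_vector'' ℝ y
    obtain ⟨χ, b1, b2⟩ := HB k ((1 - η) • (ψ : F →ₗ[ℝ] ℝ)) zero_le_one fun x => by
      have := ab a1 x
      simp only [LinearMap.smul_apply, smul_eq_mul, abs_mul, abs_of_nonneg (sub_nonneg.2 h1),
        ContinuousLinearMap.coe_coe]
      nlinarith [(hk x).1]
    have := (L (y, 0)).norm_coe_le_norm ⟨(ψ, χ), a1, b1, fun x => by
      have := ab a1 x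
      rw [b2, LinearMap.smul_apply, smul_eq_mul, ContinuousLinearMap.coe_coe,
        show (1 - η) * ψ x - ψ x = -(η * ψ x) by ring, abs_neg, abs_mul, abs_of_pos h0]
      nlinarith⟩
    simpa [hL, a2] using this
  have n2 : ∀ x, ‖L (0, x)‖ = ‖x‖ := fun x => by
    refine le_antisymm ((BoundedContinuousFunction.norm_le (norm_nonneg _)).2 fun q => by
      simpa [hL] using ab q.2.2.1 x) ?_
    obtain ⟨χ, a1, a2⟩ := exists_dual_vector'' ℝ x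
    have := (L (0, x)).norm_coe_le_norm ⟨(χ ∘L k.mkContinuous 1 fun y => by simpa using (hk y).2, χ),
      ContinuousLinearMap.opNorm_le_bound _ zero_le_one fun y =>
        (ab a1 _).trans (by simpa using (hk y).2), a1, fun y => by simp; positivity⟩
    simpa [hL, a2] using this
  exact gext1 hG u k h0 h1 L n1 n2 fun y =>
    (BoundedContinuousFunction.norm_le (by positivity)).2 fun q => by simpa [hL] using q.2.2.2 y

theorem net (F : Submodule ℝ G) [FiniteDimensional ℝ F] {η : ℝ} (h0 : 0 < η) :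
    ∃ s : Finset (G →L[ℝ] ℝ), (∀ ψ ∈ s, ‖ψ‖ ≤ 1) ∧ ∀ y ∈ F, ∃ ψ ∈ s, (1 - η) * ‖y‖ ≤ |ψ y| := by
  classical
  obtain ⟨t, t1, t2, t3⟩ := finite_cover_balls_of_compact
    (isCompact_sphere (0 : F) 1) (half_pos h0)
  choose ψ a1 a2 using fun y : G => exists_dual_vector'' ℝ y
  refine ⟨insert 0 (t2.toFinset.image fun v : F => ψ v), fun χ h => ?_, fun y hy => ?_⟩
  · rcases Finset.mem_insert.1 h with rfl | h
    · simp
    · obtain ⟨v, -, rfl⟩ := Finset.mem_image.1 h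
      exact a1 _
  rcases eq_or_ne y 0 with rfl | h
  · exact ⟨0, by simp⟩
  have p := norm_pos_iff.2 h
  obtain ⟨v, v1, v2⟩ := mem_iUnion₂.1 (t3 (show (‖y‖⁻¹ • ⟨y, hy⟩ : F) ∈ Metric.sphere 0 1 by
    simp [norm_smul, h]))
  refine ⟨ψ v, Finset.mem_insert_of_mem (Finset.mem_image_of_mem _ (t2.mem_toFinset.2 v1)), ?_⟩
  have b1 : ‖(v : G)‖ = 1 := by simpa using t1 v1
  have b2 : ‖‖y‖⁻¹ • y - v‖ < η / 2 := mem_ball_iff_norm.1 v2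
  have b3 := (abs_le.1 (ab (a1 v) (‖y‖⁻¹ • y - v))).1
  rw [map_sub, map_smul, a2, smul_eq_mul, b1] at b3
  simp only [RCLike.ofReal_real_eq_id, id] at b3
  have b4 : ψ v y = ‖y‖ * (‖y‖⁻¹ * ψ v y) := by field_simp
  refine le_trans ?_ (le_abs_self _)
  rw [b4]
  nlinarith

theorem nc {Ω : Type} [Fintype Ω] (x : Ω → ℝ) (σ : Perm Ω) : ‖x ∘ σ‖ = ‖x‖ :=
  σ.surjective.pi_norm_comp x

theorem step (hG : Gur G) {Ω : Type} [Fintype Ω] (j : (Ω → ℝ) →ₗ[ℝ] G) {ε η : ℝ} {t : ℕ}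
    (hj : AI j ε) (h0 : 0 < η) (h1 : η ≤ ε) (h2 : ε ≤ 1) (ht : t * η = 1) (g : G ≃ₗᵢ[ℝ] G)
    (s : Finset G) : ∃ (Ω' : Type) (_ : Fintype Ω') (j' : (Ω' → ℝ) →ₗ[ℝ] G) (ι : Perm Ω →* Perm Ω')
      (i : (Ω → ℝ) → Ω' → ℝ) (τ : Perm Ω'), AI j' η ∧
      (∀ x, ‖i x‖ ≤ ‖x‖ ∧ ‖j' (i x) - j x‖ ≤ 6 * ε * ‖x‖) ∧
      (∀ (σ : Perm Ω) x, i (x ∘ ⇑σ⁻¹) = i x ∘ ⇑(ι σ)⁻¹) ∧
      ∀ y ∈ s, ∃ v, ‖j' v - y‖ ≤ 2 * η * ‖y‖ ∧ ‖j' (v ∘ ⇑τ⁻¹) - g y‖ ≤ 4 * η * ‖y‖ := by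
  classical
  have e0 := h0.trans_le h1
  obtain ⟨F, hF⟩ : ∃ F : Submodule ℝ G,
    F = LinearMap.range j ⊔ Submodule.span ℝ (s ∪ s.image g : Finset G) := ⟨_, rfl⟩
  have : FiniteDimensional ℝ F := hF ▸ inferInstance
  obtain ⟨N, N1, N2⟩ := net F h0
  obtain ⟨Lv, hL⟩ : ∃ Lv : ℕ → ((Ω → ℝ) →ₗ[ℝ] ℝ) × (G →L[ℝ] ℝ) → Prop, ∀ r p, Lv r p ↔
      (∀ x, |p.1 x| ≤ min (r * η) 1 * ‖x‖) ∧ ‖p.2‖ ≤ min (r * η) 1 ∧
      ∀ x, |p.1 x - p.2 (j x)| ≤ ε * ‖x‖ := ⟨_, fun _ _ => Iff.rfl⟩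
  have b0 : ∀ r : ℕ, 0 ≤ min (r * η) 1 := fun r => by positivity
  have fr : ∀ (r : ℕ) (ψ : G →L[ℝ] ℝ), ‖ψ‖ ≤ min (r * η) 1 → ∃ φ, Lv r (φ, ψ) := fun r ψ h => by
    refine ⟨(1 + ε)⁻¹ • (ψ : G →ₗ[ℝ] ℝ) ∘ₗ j, (hL _ _).2 ⟨fun x => ?_, h, fun x => ?_⟩⟩
    · have := (ab h (j x)).trans (mul_le_mul_of_nonneg_left (hj x).2 (b0 r))
      simp only [LinearMap.smul_apply, LinearMap.comp_apply, ContinuousLinearMap.coe_coe,
        smul_eq_mul, abs_mul]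
      rw [abs_of_pos (by positivity), inv_mul_le_iff₀ (by positivity)]
      linarith
    · have := (ab (h.trans (min_le_right _ _)) (j x)).trans
        (mul_le_mul_of_nonneg_left (hj x).2 zero_le_one)
      simp only [LinearMap.smul_apply, LinearMap.comp_apply, ContinuousLinearMap.coe_coe,
        smul_eq_mul]
      rw [show (1 + ε)⁻¹ * ψ (j x) - ψ (j x) = -((1 + ε)⁻¹ * (ε * ψ (j x))) by field_simp; ring,
        abs_neg, abs_mul, abs_mul, abs_of_pos e0, abs_of_pos (by positivity),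
        inv_mul_le_iff₀ (by positivity)]
      nlinarith
  have sc : ∀ (u : G ≃ₗᵢ[ℝ] G) (r : ℕ) p, Lv (r + 1) p →
      ∃ q, Lv r q ∧ ∀ y, |q.2 y - p.2 (u y)| ≤ η * ‖y‖ := fun u r p hp => by
    have a := ((hL _ _).1 hp).2.1
    push_cast at a
    have r0 : (0 : ℝ) < r + 1 := by positivity
    obtain ⟨φ, hφ⟩ := fr r ((r / (r + 1) : ℝ) • p.2 ∘L u.toContinuousLinearEquiv.toContinuousLinearMap)
      (ContinuousLinearMap.opNorm_le_bound _ (b0 r) fun y => by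
        have b := ab (le_refl ‖p.2‖) (u y)
        rw [u.norm_map] at b
        have c : (r / (r + 1) : ℝ) * ‖p.2‖ ≤ min (r * η) 1 := by
          rw [div_mul_eq_mul_div, div_le_iff₀ r0, min_mul_of_nonneg _ _ r0.le]
          have := (le_min_iff.1 a).1
          have := (le_min_iff.1 a).2
          have : (0 : ℝ) ≤ r := r.cast_nonneg
          exact le_min (by nlinarith) (by nlinarith)
        refine le_trans (le_of_eq (abs_mul _ _)) ((mul_le_mul_of_nonneg_left b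
          (abs_nonneg (r / (r + 1) : ℝ))).trans ?_)
        rw [abs_of_nonneg (by positivity), ← mul_assoc]
        gcongr)
    refine ⟨_, hφ, fun y => ?_⟩
    have b := ab (a.trans (min_le_left _ _)) (u y)
    rw [u.norm_map] at b
    refine le_of_eq_of_le (congrArg _ (show _ = -(((r : ℝ) + 1)⁻¹ * p.2 (u y)) by
      simp; field_simp; ring)) ?_
    rw [abs_neg, abs_mul, abs_of_pos (by positivity), inv_mul_le_iff₀ r0]
    linarith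
  choose φ hφ using fun ψ : N => fr t ψ (by rw [ht, min_self]; exact N1 _ ψ.2)
  obtain ⟨T, _, f, τ, f1, f2, f3, f4⟩ := comb (Lv := Lv)
    (E := fun p q => ∀ y, |q.2 (g y) - p.2 y| ≤ η * ‖y‖)
    (O := fun f : Perm Ω → _ => ∀ (σ h : Perm Ω) x, (f h).1 (x ∘ ⇑σ⁻¹) = (f (σ⁻¹ * h)).1 x) 1 0
    (fun p hp => by
      obtain ⟨a, b, -⟩ := (hL _ _).1 hp
      exact Prod.ext (LinearMap.ext fun x => by simpa using a x) (by simpa using b))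
    (fun r => (hL _ _).2 ⟨fun x => by simp; positivity, by simp; positivity,
      fun x => by simp; positivity⟩)
    (fun r p hp => by
      obtain ⟨a, b, c⟩ := (hL _ _).1 hp
      have : min (r * η) 1 ≤ min ((r + 1 : ℕ) * η) 1 := by gcongr; omega
      exact (hL _ _).2 ⟨fun x => (a x).trans (by gcongr), b.trans this, c⟩)
    (fun y => by simp; positivity)
    (fun r p hp => by
      obtain ⟨a, b, c⟩ := (hL _ _).1 hp
      have a' : ∀ (h : Perm Ω) x, |p.1 (x ∘ h)| ≤ min (r * η) 1 * ‖x‖ := fun h x =>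
        (a _).trans_eq (by rw [nc])
      choose ψ d1 d2 using fun h : Perm Ω => HB j ((1 - ε) • p.1 ∘ₗ LinearMap.funLeft ℝ ℝ h) (b0 r)
        fun x => by
          have := mul_le_mul_of_nonneg_left (hj x).1 (b0 r)
          have := mul_le_mul_of_nonneg_left (a' h x) (sub_nonneg.2 h2)
          change |(1 - ε) * p.1 (x ∘ h)| ≤ _
          rw [abs_mul, abs_of_nonneg (sub_nonneg.2 h2)]
          linarith
      refine ⟨fun h => (p.1 ∘ₗ LinearMap.funLeft ℝ ℝ h, if h = 1 then p.2 else ψ h),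
        fun _ _ _ => rfl, Prod.ext rfl (if_pos rfl), fun h => (hL _ _).2 ⟨a' h, ?_, fun x => ?_⟩⟩
      · dsimp only
        split_ifs
        exacts [b, d1 h]
      · dsimp only
        split_ifs with e
        · rw [e]; exact c x
        · rw [d2]
          change |p.1 (x ∘ h) - (1 - ε) * p.1 (x ∘ h)| ≤ _
          rw [show ∀ w, w - (1 - ε) * w = ε * w from fun w => by ring, abs_mul, abs_of_pos e0]
          gcongr
          exact (a' h x).trans (mul_le_of_le_one_left (norm_nonneg _) (min_le_right _ _)))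
    (fun r p hp => by
      obtain ⟨q, q1, q2⟩ := sc g.symm r p hp
      exact ⟨q, q1, fun y => by simpa using q2 (g y)⟩)
    (fun r p hp => by
      obtain ⟨q, q1, q2⟩ := sc g r p hp
      exact ⟨q, q1, fun y => by rw [abs_sub_comm]; exact q2 y⟩)
    t (Finset.univ.val.map fun ψ : N => (φ ψ, ψ.1)) fun p hp => by
      obtain ⟨ψ, -, rfl⟩ := Multiset.mem_map.1 hp
      exact hφ ψ
  simp only [hL, ht, min_self, one_mul] at f2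
  obtain ⟨k, hk⟩ : ∃ k : F →ₗ[ℝ] (T × Perm Ω → ℝ), ∀ y ω, k y ω = (f ω.1 ω.2).2 y :=
    ⟨LinearMap.pi fun ω => ((f ω.1 ω.2).2 : G →ₗ[ℝ] ℝ) ∘ₗ F.subtype, fun _ _ => rfl⟩
  obtain ⟨j', a1, a2⟩ := gext hG F.subtypeₗᵢ k h0 (h1.trans h2) fun y => ⟨by
    obtain ⟨ψ, b1, b2⟩ := N2 y y.2
    obtain ⟨i, h, e⟩ := f4 _ (Multiset.mem_map.2 ⟨⟨ψ, b1⟩, Finset.mem_univ_val _, rfl⟩)
    refine b2.trans (le_of_eq_of_le ?_ (norm_le_pi_norm (k y) (i, h)))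
    rw [hk, e]
    rfl, (pi_norm_le_iff_of_nonneg (norm_nonneg _)).2 fun ω => by
      rw [hk]; simpa using ab (f2 ω.1 ω.2).2.1 (y : G)⟩
  have tri : ∀ (v : T × Perm Ω → ℝ) (y : F) (c : ℝ), 0 ≤ c → (∀ ω, |v ω - (f ω.1 ω.2).2 y| ≤ c) →
      ‖j' v - y‖ ≤ 2 * c + 2 * η * ‖(y : G)‖ := fun v y c c0 h => by
    have b : ‖v - k y‖ ≤ c := (pi_norm_le_iff_of_nonneg c0).2 fun ω => by
      rw [Pi.sub_apply, hk]; exact h ω
    have b2 := (a1 (v - k y)).2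
    have b3 := norm_sub_le_norm_sub_add_norm_sub (j' v) (j' (k y)) y
    rw [← map_sub] at b3
    have b4 : ‖j' (k y) - y‖ ≤ 2 * η * ‖(y : G)‖ := a2 y
    nlinarith [norm_nonneg (v - k y)]
  refine ⟨T × Perm Ω, inferInstance, j', ⟨⟨fun σ => (Equiv.refl T).prodCongr (Equiv.mulLeft σ),
    by ext <;> simp⟩, fun _ _ => by ext <;> simp [mul_assoc]⟩, fun x ω => (f ω.1 ω.2).1 x, τ, a1,
    fun x => ⟨(pi_norm_le_iff_of_nonneg (norm_nonneg _)).2 fun ω => (f2 ω.1 ω.2).1 x, ?_⟩,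
    fun σ x => funext fun ω => f1 ω.1 σ ω.2 x, fun y hy => ?_⟩
  · refine (tri _ ⟨j x, hF ▸ Submodule.mem_sup_left ⟨x, rfl⟩⟩ (ε * ‖x‖) (by positivity)
      fun ω => (f2 ω.1 ω.2).2.2 x).trans ?_
    have := mul_le_mul h1 ((hj x).2.trans (mul_le_mul_of_nonneg_right
      (show 1 + ε ≤ 2 by linarith) (norm_nonneg _))) (norm_nonneg _) e0.le
    dsimp only
    linarith
  · have m1 : y ∈ F := hF ▸ Submodule.mem_sup_right (Submodule.subset_span (by simp [hy]))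
    have m2 : g y ∈ F := hF ▸ Submodule.mem_sup_right (Submodule.subset_span 
      (Finset.mem_coe.2 (Finset.mem_union_right _ (Finset.mem_image_of_mem _ hy))))
    refine ⟨k ⟨y, m1⟩, a2 ⟨y, m1⟩, (tri _ ⟨g y, m2⟩ (η * ‖y‖) (by positivity)
      fun ω => ?_).trans_eq (by simp; ring)⟩
    have := f3 (τ⁻¹ ω) y
    rw [show τ (τ⁻¹ ω) = ω from τ.apply_symm_apply ω, abs_sub_comm] at this
    rw [Function.comp_apply, hk]
    exact this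

end Pool.Agent.H.MP_dc9a2a_an
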