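import Mathlib

set_option autoImplicit false

namespace Pool.Agent.H.MP_dc9a2a_an
open Multiset

variable {P H : Type}

theorem eqv {A B : Type} [Fintype A] [Fintype B] (f : A → P) (g : B → P)
    (h : Finset.univ.val.map f = Finset.univ.val.map g) : ∃ σ : A ≃ B, ∀ a, g (σ a) = f a := by
  classical
  refine ⟨Equiv.ofFiberEquiv fun c => Fintype.equivOfCardEq ?_, Equiv.ofFiberEquiv_map _⟩
  have := congrArg (count c) h
  rw [count_map, count_map] at this
  simp only [Fintype.card_subtype, eq_comm (b := c)]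
  exact this

theorem path {Lv : ℕ → P → Prop} {E : P → P → Prop} {z : P} (h0 : ∀ p, Lv 0 p → p = z)
    (mono : ∀ t p, Lv t p → Lv (t + 1) p) (Ez : E z z)
    (hF : ∀ t p, Lv (t + 1) p → ∃ q, Lv t q ∧ E p q) (t : ℕ) : ∀ p, Lv t p →
    ∃ (e : Multiset (P × P)) (c : Multiset P), (∀ x ∈ e, E x.1 x.2) ∧ (∀ q ∈ c, Lv (t - 1) q) ∧
      e.map Prod.fst = p ::ₘ c ∧ e.map Prod.snd = z ::ₘ c := by
  induction t with
  | zero => exact fun p hp => ⟨{(z, z)}, 0, by simpa, by simp, by simp [h0 p hp], by simp⟩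
  | succ t ih =>
    intro p hp
    obtain ⟨q, q1, q2⟩ := hF t p hp
    obtain ⟨e, c, a1, a2, a3, a4⟩ := ih q q1
    refine ⟨(p, q) ::ₘ e, q ::ₘ c, by simpa using ⟨q2, fun a b h => a1 _ h⟩, fun r hr => ?_,
      by simp [a3], by simp [a4, cons_swap]⟩
    rcases mem_cons.1 hr with rfl | hr
    · exact q1
    · rcases t with _ | t
      · exact a2 r hr
      · exact mono _ _ (a2 r hr)

theorem comb [Fintype H] {Lv : ℕ → P → Prop} {E : P → P → Prop} {O : (H → P) → Prop} (o : H) (z : P)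
    (h0 : ∀ p, Lv 0 p → p = z) (hz : ∀ t, Lv t z) (mono : ∀ t p, Lv t p → Lv (t + 1) p)
    (Ez : E z z) (hO : ∀ t p, Lv t p → ∃ f, O f ∧ f o = p ∧ ∀ h, Lv t (f h))
    (hF : ∀ t p, Lv (t + 1) p → ∃ q, Lv t q ∧ E p q)
    (hB : ∀ t p, Lv (t + 1) p → ∃ q, Lv t q ∧ E q p) (t : ℕ) (a : Multiset P)
    (ha : ∀ p ∈ a, Lv t p) : ∃ (T : Type) (_ : Fintype T) (f : T → H → P) (τ : Equiv.Perm (T × H)),
      (∀ i, O (f i)) ∧ (∀ i h, Lv t (f i h)) ∧ (∀ ω, E (f ω.1 ω.2) (f (τ ω).1 (τ ω).2)) ∧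
      ∀ p ∈ a, ∃ i h, f i h = p := by
  classical
  obtain ⟨Om, hOm⟩ : ∃ Om : Multiset P → Prop, ∀ m, Om m ↔ ∃ s : Multiset (H → P),
    (∀ f ∈ s, O f) ∧ s.bind (fun f => Finset.univ.val.map f) = m := ⟨_, fun _ => Iff.rfl⟩
  obtain ⟨Cm, hCm⟩ : ∃ Cm : Multiset P → Prop, ∀ m, Cm m ↔ ∃ e : Multiset (P × P),
    (∀ x ∈ e, E x.1 x.2) ∧ e.map Prod.fst = m ∧ e.map Prod.snd = m := ⟨_, fun _ => Iff.rfl⟩
  have Oa : ∀ {m n}, Om m → Om n → Om (m + n) := fun {m n} a b => by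
    rw [hOm] at a b ⊢
    obtain ⟨s, s1, rfl⟩ := a
    obtain ⟨u, u1, rfl⟩ := b
    exact ⟨s + u, fun f h => (mem_add.1 h).elim (s1 f) (u1 f), add_bind _ _ _⟩
  have Ca : ∀ {m n}, Cm m → Cm n → Cm (m + n) := fun {m n} a b => by
    rw [hCm] at a b ⊢
    obtain ⟨s, s1, s2, s3⟩ := a
    obtain ⟨u, u1, u2, u3⟩ := b
    exact ⟨s + u, fun f h => (mem_add.1 h).elim (s1 f) (u1 f), by rw [Multiset.map_add, s2, u2],
      by rw [Multiset.map_add, s3, u3]⟩
  have La : ∀ {t} {m n : Multiset P}, (∀ p ∈ m, Lv t p) → (∀ p ∈ n, Lv t p) → ∀ p ∈ m + n, Lv t p :=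
    fun a b p h => (mem_add.1 h).elim (a p) (b p)
  have L1 : ∀ t (c : Multiset P), (∀ p ∈ c, Lv t p) → ∃ d, (∀ p ∈ d, Lv t p) ∧ Om (c + d) :=
    fun t c => by
      induction c using Multiset.induction with
      | empty => exact fun _ => ⟨0, by simp, (hOm _).2 ⟨0, by simp, by simp⟩⟩
      | cons p c ih =>
        intro h
        obtain ⟨d, d1, d2⟩ := ih fun q hq => h q (mem_cons_of_mem hq)
        obtain ⟨f, f1, rfl, f3⟩ := hO t p (h p (mem_cons_self _ _))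
        refine ⟨d + (Finset.univ.val.erase o).map f, La d1 fun q hq => ?_, ?_⟩
        · obtain ⟨k, -, rfl⟩ := mem_map.1 hq
          exact f3 k
        · have := Oa d2 ((hOm _).2 ⟨{f}, by simpa, rfl⟩)
          rw [singleton_bind, ← cons_erase (Finset.mem_univ_val o), map_cons] at this
          rwa [cons_add, ← add_assoc, ← add_cons]
  have L3 : ∀ t (c : Multiset P), (∀ p ∈ c, Lv (t + 1) p) → ∃ d, (∀ p ∈ d, Lv t p) ∧ Cm (c + d) :=
    fun t c => by
      induction c using Multiset.induction with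
      | empty => exact fun _ => ⟨0, by simp, (hCm _).2 ⟨0, by simp, by simp, by simp⟩⟩
      | cons p c ih =>
        intro h
        obtain ⟨d, d1, d2⟩ := ih fun q hq => h q (mem_cons_of_mem hq)
        obtain ⟨e, u, a1, a2, a3, a4⟩ := path h0 mono Ez hF _ p (h p (mem_cons_self _ _))
        obtain ⟨e', u', b1, b2, b3, b4⟩ := path (E := fun p q => E q p) h0 mono Ez hB _ p
          (h p (mem_cons_self _ _))
        refine ⟨d + (u + z ::ₘ u'), La d1 (La a2 fun q hq => ?_), ?_⟩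
        · rcases mem_cons.1 hq with rfl | hq
          · exact hz t
          · exact b2 q hq
        · have := Ca d2 ((hCm (p ::ₘ (u + z ::ₘ u'))).2 ⟨e + e'.map Prod.swap, fun x hx => by
            rcases mem_add.1 hx with hx | hx
            · exact a1 x hx
            · obtain ⟨y, hy, rfl⟩ := mem_map.1 hx
              exact b1 y hy,
            by rw [Multiset.map_add, map_map, a3, show Prod.fst ∘ Prod.swap = Prod.snd from rfl, b4,
              cons_add],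
            by rw [Multiset.map_add, map_map, a4, show Prod.snd ∘ Prod.swap = Prod.fst from rfl, b3,
              cons_add, add_cons, add_cons, cons_swap]⟩)
          rwa [cons_add, ← add_assoc, ← add_cons]
  have L4 : ∀ t (c : Multiset P), (∀ p ∈ c, Lv t p) →
      ∃ d, (∀ p ∈ d, Lv t p) ∧ Om (c + d) ∧ Cm d := fun t => by
    induction t with
    | zero =>
      intro c hc
      obtain ⟨d, d1, d2⟩ := L1 0 c hc
      refine ⟨d, d1, d2, (hCm _).2 ⟨d.map fun p => (p, p), fun x hx => ?_, by simp, by simp⟩⟩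
      obtain ⟨y, hy, rfl⟩ := mem_map.1 hx
      rw [h0 y (d1 y hy)]
      exact Ez
    | succ t ih =>
      intro c hc
      obtain ⟨c1, a1, a2⟩ := L1 _ c hc
      obtain ⟨c2, b1, b2⟩ := L3 _ c1 a1
      obtain ⟨d, d1, d2, d3⟩ := ih c2 b1
      refine ⟨c1 + c2 + d, La (La a1 fun p h => mono _ _ (b1 p h)) fun p h => mono _ _ (d1 p h),
        ?_, Ca b2 d3⟩
      rw [add_assoc, ← add_assoc]
      exact Oa a2 d2
  obtain ⟨c, c1, c2⟩ := L3 t a fun p h => mono _ _ (ha p h)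
  obtain ⟨d, d1, d2, d3⟩ := L4 t _ (La ha c1)
  obtain ⟨s, s1, s2⟩ := (hOm _).1 d2
  obtain ⟨e, e1, e2, e3⟩ := (hCm _).1 (Ca c2 d3)
  have k : (Finset.univ : Finset (s × H)).val.map (fun ω => (ω.1 : H → P) ω.2) = a + c + d := by
    rw [← s2, ← Finset.univ_product_univ, Finset.product_val]
    conv_rhs => rw [← map_univ_coe s, bind_map]
    exact (map_bind _ _ _).trans (by simp only [map_map]; rfl)
  obtain ⟨α, hα⟩ := eqv (fun ω : s × H => (ω.1 : H → P) ω.2) (fun x : e => (x : P × P).1)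
    (by rw [k, map_univ, e2])
  obtain ⟨β, hβ⟩ := eqv (fun x : e => (x : P × P).2) (fun ω : s × H => (ω.1 : H → P) ω.2)
    (by rw [k, map_univ, e3])
  refine ⟨s, inferInstance, fun i => i, α.trans β, fun i => s1 _ coe_mem, fun i h => ?_,
    fun ω => ?_, fun p hp => ?_⟩
  · exact La (La ha c1) d1 _ (k ▸ mem_map.2 ⟨(i, h), Finset.mem_univ_val _, rfl⟩)
  · convert e1 _ (coe_mem (x := α ω)) using 1
    exacts [(hα ω).symm, hβ (α ω)]
  · obtain ⟨ω, -, h⟩ := mem_map.1 (k ▸ mem_add.2 (Or.inl (mem_add.2 (Or.inl hp))) : p ∈ _)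
    exact ⟨ω.1, ω.2, h⟩

end Pool.Agent.H.MP_dc9a2a_an
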