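import Pool.Agent.H.MP_dc9a2a_an.B

set_option autoImplicit false

namespace Pool.Agent.H.MP_dc9a2a_an
open scoped Topology
open Set Equiv Filter

variable {G : Type} [NormedAddCommGroup G] [NormedSpace ℝ G]

noncomputable def ep (n : ℕ) : ℝ := (1 / 2) ^ n

theorem ep0 (n : ℕ) : 0 < ep n := by unfold ep; positivity

theorem eps (n : ℕ) : ep (n + 1) = ep n / 2 := by unfold ep; ring

theorem ept : Tendsto ep atTop (𝓝 0) :=
  tendsto_pow_atTop_nhds_zero_of_lt_one (by norm_num) (by norm_num)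

theorem epm {m n : ℕ} (h : m ≤ n) : ep n ≤ ep m :=
  pow_le_pow_of_le_one (by norm_num) (by norm_num) h

theorem ep1 {n : ℕ} (h : 1 ≤ n) : ep n ≤ 1 / 2 := (epm h).trans_eq (by simp [ep])

variable {Ω : ℕ → Type} [∀ n, Fintype (Ω n)]

structure Tw (j : ∀ n, (Ω n → ℝ) →ₗ[ℝ] G) (ι : ∀ n, Perm (Ω n) →* Perm (Ω (n + 1)))
    (i : ∀ n, (Ω n → ℝ) → Ω (n + 1) → ℝ) : Prop where
  ai : ∀ n, AI (j n) (ep n)
  cl : ∀ n x, ‖i n x‖ ≤ ‖x‖ ∧ ‖j (n + 1) (i n x) - j n x‖ ≤ 6 * ep n * ‖x‖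
  eq : ∀ n (σ : Perm (Ω n)) x, i n (x ∘ ⇑σ⁻¹) = i n x ∘ ⇑(ι n σ)⁻¹
  de : ∀ y δ, 0 < δ → ∀ᶠ m in atTop, ∃ v, ‖j m v - y‖ < δ

def Coh (ι : ∀ n, Perm (Ω n) →* Perm (Ω (n + 1))) (n : ℕ) (σ : ∀ m, Perm (Ω m)) : Prop :=
  ∀ m, n ≤ m → σ (m + 1) = ι m (σ m)

def Rl (j : ∀ n, (Ω n → ℝ) →ₗ[ℝ] G) (σ : ∀ m, Perm (Ω m)) (u : G → G) : Prop :=
  ∀ (x : ∀ m, Ω m → ℝ) y, Tendsto (fun m => j m (x m)) atTop (𝓝 y) →
    Tendsto (fun m => j m (x m ∘ ⇑(σ m)⁻¹)) atTop (𝓝 (u y))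

variable {j : ∀ n, (Ω n → ℝ) →ₗ[ℝ] G} {ι : ∀ n, Perm (Ω n) →* Perm (Ω (n + 1))}
  {i : ∀ n, (Ω n → ℝ) → Ω (n + 1) → ℝ}

omit [∀ n, Fintype (Ω n)] in
theorem exCoh (n : ℕ) (σ₀ : Perm (Ω n)) : ∃ σ, Coh ι n σ ∧ σ n = σ₀ := by
  refine ⟨fun m => Nat.rec (if h : n = 0 then cast (by rw [h]) σ₀ else 1)
    (fun m σ => if h : n = m + 1 then cast (by rw [h]) σ₀ else ι m σ) m,
    fun m h => dif_neg (show ¬ n = m + 1 by omega), ?_⟩
  cases n <;> simp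

theorem appr (T : Tw j ι i) (y : G) :
    ∃ x : ∀ m, Ω m → ℝ, Tendsto (fun m => j m (x m)) atTop (𝓝 y) := by
  choose z hz h using fun m => (Metric.infDist_lt_iff (range_nonempty (j m))).1
    (lt_add_of_pos_right (Metric.infDist y (range (j m))) (ep0 m))
  choose x hx using hz
  refine ⟨x, Metric.tendsto_nhds.2 fun δ hδ => ?_⟩
  filter_upwards [T.de y _ (half_pos hδ), ept.eventually (gt_mem_nhds (half_pos hδ))] with m a b
  obtain ⟨v, hv⟩ := a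
  have := Metric.infDist_le_dist_of_mem (x := y) (mem_range_self (f := j m) v)
  rw [dist_comm, dist_eq_norm] at this
  rw [hx, dist_comm]
  linarith [h m]

theorem half (T : Tw j ι i) {m : ℕ} (h : 1 ≤ m) (x : Ω m → ℝ) :
    ‖x‖ ≤ 2 * ‖j m x‖ ∧ ‖j m x‖ ≤ 2 * ‖x‖ := by
  have := mul_le_mul_of_nonneg_right (ep1 h) (norm_nonneg x)
  constructor <;> linarith [(T.ai m x).1, (T.ai m x).2, norm_nonneg x]

theorem nrm (T : Tw j ι i) {x : ∀ m, Ω m → ℝ} {y : G}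
    (h : Tendsto (fun m => j m (x m)) atTop (𝓝 y)) (σ : ∀ m, Perm (Ω m)) :
    Tendsto (fun m => ‖j m (x m ∘ σ m)‖) atTop (𝓝 ‖y‖) := by
  refine h.norm.congr_dist (squeeze_zero' (g := fun m => 4 * ep m * ‖j m (x m)‖)
    (.of_forall fun _ => dist_nonneg) ?_ (by simpa using (ept.const_mul 4).mul h.norm))
  filter_upwards [eventually_ge_atTop 1] with m hm
  have a := T.ai m (x m)
  have b := T.ai m (x m ∘ σ m)
  rw [nc] at b
  have := mul_le_mul_of_nonneg_left (half T hm (x m)).1 (ep0 m).le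
  rw [Real.dist_eq, abs_le]
  constructor <;> linarith [a.1, a.2, b.1, b.2]

theorem key (T : Tw j ι i) {N m : ℕ} (h1 : 1 ≤ N) (h : N ≤ m) {σ : ∀ m, Perm (Ω m)}
    (hσ : Coh ι N σ) (v : Ω N → ℝ) (x : Ω m → ℝ) :
    ‖j m (x ∘ ⇑(σ m)⁻¹) - j N (v ∘ ⇑(σ N)⁻¹)‖ ≤ 4 * ‖j m x - j N v‖ + 60 * ep N * ‖v‖ := by
  obtain ⟨w, -, hw⟩ : ∃ w : Ω m → ℝ, ‖w‖ ≤ ‖v‖ ∧ ∀ σ, Coh ι N σ →
      ‖j m (w ∘ ⇑(σ m)⁻¹) - j N (v ∘ ⇑(σ N)⁻¹)‖ ≤ 12 * (ep N - ep m) * ‖v‖ := by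
    clear x
    induction m, h using Nat.le_induction with
    | base => exact ⟨v, le_rfl, fun _ _ => by simp⟩
    | succ m hm ih =>
      obtain ⟨w, a, b⟩ := ih
      refine ⟨i m w, (T.cl m w).1.trans a, fun σ hσ => ?_⟩
      have c := (T.cl m (w ∘ ⇑(σ m)⁻¹)).2
      rw [nc] at c
      rw [hσ m hm, ← T.eq, eps]
      have := mul_le_mul_of_nonneg_left a (ep0 m).le
      linarith [norm_sub_le_norm_sub_add_norm_sub (j (m + 1) (i m (w ∘ ⇑(σ m)⁻¹)))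
        (j m (w ∘ ⇑(σ m)⁻¹)) (j N (v ∘ ⇑(σ N)⁻¹)), b σ hσ]
  have a := hw σ hσ
  have b : ‖j m w - j N v‖ ≤ _ := hw (fun _ => 1) fun m _ => (map_one _).symm
  have c := (half T (h1.trans h) ((x - w) ∘ ⇑(σ m)⁻¹)).2
  have d := (half T (h1.trans h) (x - w)).1
  rw [nc, Pi.sub_comp, map_sub] at c
  rw [map_sub] at d
  have e := norm_sub_le_norm_sub_add_norm_sub (j m x) (j N v) (j m w)
  rw [norm_sub_rev (j N v)] at e
  have := mul_nonneg (ep0 m).le (norm_nonneg v)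
  linarith [norm_sub_le_norm_sub_add_norm_sub (j m (x ∘ ⇑(σ m)⁻¹)) (j m (w ∘ ⇑(σ m)⁻¹))
    (j N (v ∘ ⇑(σ N)⁻¹))]

omit [∀ n, Fintype (Ω n)] in
theorem Rl.mul {σ σ' : ∀ m, Perm (Ω m)} {u u' : G → G} (a : Rl j σ u) (b : Rl j σ' u') :
    Rl j (σ * σ') (u ∘ u') := fun x y h => a _ _ (b x y h)

theorem Rl.uniq (T : Tw j ι i) {σ σ' : ∀ m, Perm (Ω m)} {u u' : G → G} (a : Rl j σ u)
    (b : Rl j σ' u') (e : ∀ᶠ m in atTop, σ m = σ' m) (y : G) : u y = u' y := by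
  obtain ⟨x, hx⟩ := appr T y
  exact tendsto_nhds_unique ((a x y hx).congr' (e.mono fun m h => by rw [h])) (b x y hx)

theorem exR0 [CompleteSpace G] (T : Tw j ι i) {n : ℕ} {σ : ∀ m, Perm (Ω m)} (hσ : Coh ι n σ) :
    ∃ u : G → G, Rl j σ u := by
  choose x hx using appr T
  have c : ∀ y, CauchySeq fun m => j m (x y m ∘ ⇑(σ m)⁻¹) := fun y => by
    refine Metric.cauchySeq_iff'.2 fun δ hδ => ?_
    obtain ⟨M, hM⟩ := Metric.tendsto_atTop.1 (hx y) (δ / 16) (by positivity)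
    obtain ⟨N, ⟨a, b⟩, c, d⟩ := (((eventually_ge_atTop 1).and (eventually_ge_atTop n)).and
      ((eventually_ge_atTop M).and ((((ept.const_mul 120).mul (hx y).norm).eventually
      (gt_mem_nhds (by simpa using half_pos hδ : _ < δ / 2)))))).exists
    refine ⟨N, fun m hm => ?_⟩
    have e := key T a hm (fun k hk => hσ k (b.trans hk)) (x y N) (x y m)
    have f := dist_triangle_right (j m (x y m)) (j N (x y N)) y
    have := mul_le_mul_of_nonneg_left (half T a (x y N)).1 (ep0 N).le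
    rw [dist_eq_norm] at f ⊢
    linarith [hM m (c.trans hm), hM N c]
  choose u hu using fun y => cauchySeq_tendsto_of_complete (c y)
  refine ⟨u, fun z y h => (hu y).congr_dist ?_⟩
  have := nrm T (x := fun m => x y m - z m) (by simpa only [map_sub] using (hx y).sub h)
    fun m => (σ m)⁻¹
  rw [sub_self, norm_zero] at this
  simpa only [dist_eq_norm, ← map_sub, ← Pi.sub_comp] using this

theorem exR [CompleteSpace G] (T : Tw j ι i) {n : ℕ} {σ : ∀ m, Perm (Ω m)} (hσ : Coh ι n σ) :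
    ∃ u : G ≃ₗᵢ[ℝ] G, Rl j σ u := by
  obtain ⟨u, hu⟩ := exR0 T hσ
  obtain ⟨u', hu'⟩ := exR0 T (σ := σ⁻¹) (n := n) fun m h => by simp [hσ m h]
  choose x hx using appr T
  refine ⟨.ofSurjective ⟨⟨⟨u, fun a b => ?_⟩, fun c a => ?_⟩, fun a => ?_⟩ fun a => ⟨u' a, ?_⟩, hu⟩
  · exact tendsto_nhds_unique (hu (x a + x b) _ (by simpa using (hx a).add (hx b)))
      (by simpa [Pi.add_comp] using (hu _ _ (hx a)).add (hu _ _ (hx b)))
  · exact tendsto_nhds_unique (hu (c • x a) _ (by simpa using (hx a).const_smul c))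
      (by simpa [Pi.smul_comp] using (hu _ _ (hx a)).const_smul c)
  · exact tendsto_nhds_unique (hu _ _ (hx a)).norm (nrm T (hx a) _)
  · exact (hu.mul hu').uniq T (σ' := 1) (u' := id) (fun _ _ h => h) (.of_forall fun m => by simp) a

def HH (T : Tw j ι i) [CompleteSpace G] (n : ℕ) : Subgroup (G ≃ₗᵢ[ℝ] G) where
  carrier := {u | ∃ σ, Coh ι n σ ∧ Rl j σ u}
  one_mem' := ⟨1, fun m _ => (map_one _).symm, fun _ _ h => h⟩
  mul_mem' := fun ⟨σ, a, b⟩ ⟨σ', c, d⟩ =>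
    ⟨σ * σ', fun m h => by simp [a m h, c m h], b.mul d⟩
  inv_mem' := fun {u} ⟨σ, a, b⟩ => by
    have c : Coh ι n σ⁻¹ := fun m h => by simp [a m h]
    obtain ⟨w, d⟩ := exR T c
    refine ⟨_, c, (eq_inv_of_mul_eq_one_right (LinearIsometryEquiv.ext fun y => ?_) : w = u⁻¹) ▸ d⟩
    exact (b.mul d).uniq T (σ' := 1) (u' := id) (fun _ _ h => h) (.of_forall fun m => by simp) y

theorem HHfin (T : Tw j ι i) [CompleteSpace G] (n : ℕ) : (HH T n : Set (G ≃ₗᵢ[ℝ] G)).Finite := by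
  refine (finite_iUnion (f := fun σ₀ : Perm (Ω n) => {u : G ≃ₗᵢ[ℝ] G | ∃ σ, σ n = σ₀ ∧ Coh ι n σ ∧
    Rl j σ u}) fun σ₀ => Set.Subsingleton.finite ?_).subset fun u ⟨σ, h⟩ =>
    mem_iUnion.2 ⟨_, σ, rfl, h⟩
  rintro u ⟨σ, rfl, a, b⟩ w ⟨σ', e, c, d⟩
  refine LinearIsometryEquiv.ext (b.uniq T d ((eventually_ge_atTop n).mono fun m h => ?_))
  induction m, h using Nat.le_induction with
  | base => exact e.symm
  | succ m hm ih => rw [a m hm, c m hm, ih]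

theorem near (T : Tw j ι i) [CompleteSpace G] {N : ℕ} (h : 1 ≤ N) (τ : Perm (Ω N)) :
    ∃ u ∈ HH T N, ∀ y z v, ‖j N v - y‖ ≤ 2 * ep N * ‖y‖ → ‖j N (v ∘ ⇑τ⁻¹) - z‖ ≤ 4 * ep N * ‖y‖ →
      ‖u y - z‖ ≤ 252 * ep N * ‖y‖ := by
  obtain ⟨σ, a, rfl⟩ := exCoh (ι := ι) N τ
  obtain ⟨u, b⟩ := exR T a
  refine ⟨u, ⟨σ, a, b⟩, fun y z v c d => ?_⟩
  obtain ⟨x, hx⟩ := appr T y
  have e := le_of_tendsto_of_tendsto ((b x y hx).sub_const _).norm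
    (((hx.sub_const _).norm.const_mul 4).add_const _)
    ((eventually_ge_atTop N).mono fun m hm => key T h hm a v (x m))
  rw [norm_sub_rev y] at e
  have f := (half T h v).1
  have g := norm_le_norm_add_norm_sub' (j N v) y
  have k := mul_le_mul_of_nonneg_right (ep1 h) (norm_nonneg y)
  have := mul_le_mul_of_nonneg_left (show ‖v‖ ≤ 4 * ‖y‖ by linarith) (ep0 N).le
  linarith [norm_sub_le_norm_sub_add_norm_sub (u y) (j N (v ∘ ⇑(σ N)⁻¹)) z]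

structure St (G : Type) [NormedAddCommGroup G] [NormedSpace ℝ G] (n : ℕ) where
  Ω : Type
  fin : Fintype Ω
  j : (Ω → ℝ) →ₗ[ℝ] G
  ai : AI j (ep n)

instance {n : ℕ} (S : St G n) : Fintype S.Ω := S.fin

theorem tower (hG : Gur G) (g : ℕ → G ≃ₗᵢ[ℝ] G) {d : ℕ → G} (hd : DenseRange d) :
    ∃ (Ω : ℕ → Type) (_ : ∀ n, Fintype (Ω n)) (j : ∀ n, (Ω n → ℝ) →ₗ[ℝ] G)
      (ι : ∀ n, Perm (Ω n) →* Perm (Ω (n + 1))) (i : ∀ n, (Ω n → ℝ) → Ω (n + 1) → ℝ), Tw j ι i ∧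
      ∀ n, ∃ τ : Perm (Ω (n + 1)), ∀ k ≤ n, ∃ v, ‖j (n + 1) v - d k‖ ≤ 2 * ep (n + 1) * ‖d k‖ ∧
        ‖j (n + 1) (v ∘ ⇑τ⁻¹) - g n (d k)‖ ≤ 4 * ep (n + 1) * ‖d k‖ := by
  classical
  choose Ω' f' j' ι i τ a1 a2 a3 a4 using fun (n : ℕ) (S : St G n) => step hG S.j (t := 2 ^ (n + 1))
    S.ai (ep0 (n + 1)) (epm n.le_succ) ((epm n.zero_le).trans_eq (pow_zero _))
    (by simp [ep]) (g n) ((Finset.range (n + 1)).image d)
  let S : ∀ n, St G n := fun n => Nat.rec ⟨Empty, inferInstance, 0, fun x => by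
    simp [Subsingleton.elim x 0]⟩ (fun n S => ⟨Ω' n S, f' n S, j' n S, a1 n S⟩) n
  have b : ∀ n, ∀ k ≤ n, ∃ v, ‖(S (n + 1)).j v - d k‖ ≤ 2 * ep (n + 1) * ‖d k‖ ∧
      ‖(S (n + 1)).j (v ∘ ⇑(τ n (S n))⁻¹) - g n (d k)‖ ≤ 4 * ep (n + 1) * ‖d k‖ := fun n k hk =>
    a4 n (S n) _ (Finset.mem_image_of_mem _ (Finset.mem_range.2 (by omega)))
  refine ⟨fun n => (S n).Ω, fun n => (S n).fin, fun n => (S n).j, fun n => ι n (S n), fun n => i n (S n),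
    ?_, fun n => ⟨_, b n⟩⟩
  refine @Tw.mk G _ _ (fun n => (S n).Ω) (fun n => (S n).fin) _ _ _ (fun n => (S n).ai)
    (fun n => a2 n (S n)) (fun n => a3 n (S n)) fun y δ hδ => ?_
  obtain ⟨k, hk⟩ := hd.exists_dist_lt y (half_pos hδ)
  filter_upwards [eventually_gt_atTop k, ((ept.const_mul 2).mul_const ‖d k‖).eventually
    (gt_mem_nhds (by simpa using half_pos hδ : _ < δ / 2))] with m h1 h2
  obtain ⟨m, rfl⟩ := Nat.exists_eq_add_one.2 (Nat.zero_lt_of_lt h1)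
  obtain ⟨v, hv, -⟩ := b m k (by omega)
  rw [dist_comm, dist_eq_norm] at hk
  exact ⟨v, by linarith [norm_sub_le_norm_sub_add_norm_sub ((S (m + 1)).j v) (d k) y]⟩

theorem main [CompleteSpace G] [TopologicalSpace.SeparableSpace G] (hG : Gur G) :
    ∃ H : ℕ → Subgroup (G ≃ₗᵢ[ℝ] G), Monotone H ∧ (∀ n, (H n : Set (G ≃ₗᵢ[ℝ] G)).Finite) ∧
      ∀ g : G ≃ₗᵢ[ℝ] G, ∀ s : Finset G, ∀ ε : ℝ, 0 < ε →
        ∃ n, ∃ h ∈ H n, ∀ x ∈ s, ‖h x - g x‖ < ε := by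
  obtain ⟨d, hd⟩ := TopologicalSpace.exists_dense_seq G
  have := UniformSpace.secondCountable_of_separable G
  let t : TopologicalSpace (G ≃ₗᵢ[ℝ] G) := .induced (fun g k => g (d k)) inferInstance
  have : SecondCountableTopology (G ≃ₗᵢ[ℝ] G) := TopologicalSpace.secondCountableTopology_induced _ _ _
  obtain ⟨γ, hγ⟩ := TopologicalSpace.exists_dense_seq (G ≃ₗᵢ[ℝ] G)
  obtain ⟨Ω, _, j, ι, i, T, h⟩ := tower hG (fun n => γ n.unpair.1) hd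
  refine ⟨HH T, fun m n hmn u ⟨σ, a, b⟩ => ⟨σ, fun k hk => a k (hmn.trans hk), b⟩, HHfin T,
    fun g s ε hε => ?_⟩
  choose k hk using fun x => hd.exists_dist_lt x (show 0 < ε / 4 by positivity)
  obtain ⟨a, ha⟩ := hγ.exists_mem_open (s := ⋂ x ∈ s, {u | dist (u (d (k x))) (g (d (k x))) < ε / 4})
    (isOpen_biInter_finset fun x _ => isOpen_lt (Continuous.dist
      ((continuous_apply (k x)).comp (continuous_induced_dom
        (f := fun (g : G ≃ₗᵢ[ℝ] G) k => g (d k)))) continuous_const) continuous_const)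
    ⟨g, mem_iInter₂.2 fun x _ => by simpa⟩
  obtain ⟨b, hb⟩ := ((eventually_all_finset s).2 fun x _ => (eventually_ge_atTop (k x)).and
    (((ept.const_mul 252).mul_const ‖d (k x)‖).eventually
    (gt_mem_nhds (by simpa : _ < ε / 4)))).exists
  obtain ⟨τ, hτ⟩ := h (Nat.pair a b)
  obtain ⟨u, u1, u2⟩ := near T (Nat.le_add_left 1 _) τ
  refine ⟨_, u, u1, fun x hx => ?_⟩
  obtain ⟨v, v1, v2⟩ := hτ (k x) ((hb x hx).1.trans (Nat.right_le_pair a b))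
  have c1 := u2 _ _ v v1 v2
  rw [Nat.unpair_pair, ← dist_eq_norm] at c1
  have c2 := mul_le_mul_of_nonneg_right (epm ((Nat.right_le_pair a b).trans (Nat.le_succ _)))
    (norm_nonneg (d (k x)))
  have c3 : dist (γ a (d (k x))) (g (d (k x))) < ε / 4 := mem_iInter₂.1 ha x hx
  have c4 := dist_triangle4 (u x) (u (d (k x))) (γ a (d (k x))) (g (d (k x)))
  have c5 := dist_triangle_right (u x) (g x) (g (d (k x)))
  rw [u.dist_map] at c4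
  rw [g.dist_map, dist_eq_norm] at c5
  linarith [hk x, (hb x hx).2]

end Pool.Agent.H.MP_dc9a2a_an
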